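import Pool.Agent.TH180.TW.Tw

/-!
The bound for the order of vanishing of a quadratic twist, and the tail.
-/

set_option autoImplicit false
set_option linter.all false
set_option maxHeartbeats 1000000

open Polynomial Finset

namespace Pool.Agent.TH180.TW

open Pool.Agent.TH180.RT (finAR cardAR redM redM_apply redM_surj sum_fib sg q_pos sq_pow Pd mem_Pd
  card_Pd_real sum_Irr wt sum_nat card_LT moment fejer_bound)
open Pool.Agent.H341R2.Sharp (Irr mem_Irr)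
open Pool.Agent.TH180.HG (chi exists_l sqrt_one geom norm_sum)

open Classical in
/-- the power sums -/
noncomputable def psum {k : Type} [Field k] {r : ℕ} (α : k[X] → Fin r → ℂ)
    (α' : Fin r → ℂ) (m : ℕ) : ℂ :=
  ∑ i, α' i ^ m + ∑ᶠ P : k[X], if P.Monic ∧ Irreducible P ∧ P.natDegree ∣ m then
    (P.natDegree : ℂ) * ∑ i, α P i ^ (m / P.natDegree) else 0

variable {k : Type} [Field k] [Fintype k] [DecidableEq k]

/-- the local data of the twist -/
def Loc {r : ℕ} (α₀ : k[X] → Fin r → ℂ) (D : k[X]) (c : ℕ) (B : Finset k[X])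
    (α : k[X] → Fin r → ℂ) (α' : Fin r → ℂ) : Prop :=
  ∑ P ∈ B, P.natDegree ≤ c ∧
  (∀ P : k[X], P.Monic → Irreducible P → (∀ i, ‖α P i‖ ≤ √(Nat.card k : ℝ) ^ P.natDegree) ∧
    (P ∉ B → ∑ i, α P i = (chi D P : ℂ) * ∑ i, α₀ P i)) ∧
  ∀ i, ‖α' i‖ ≤ √(Nat.card k : ℝ)

/-- the primes of smaller degree -/
theorem rest_bound {r : ℕ} {α₀ : k[X] → Fin r → ℂ} {D : k[X]} {c : ℕ} {B : Finset k[X]}
    {α : k[X] → Fin r → ℂ} {α' : Fin r → ℂ} (hL : Loc α₀ D c B α α') {m : ℕ}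
    (hm : 0 < m) :
    |∑ P ∈ (Irr k m).filter (fun P => P.natDegree ∣ m ∧ P.natDegree ≠ m),
      (P.natDegree : ℝ) * (∑ i, α P i ^ (m / P.natDegree)).re| ≤
      2 * r * (Nat.card k : ℝ) ^ m := by
  have hs0 : (0 : ℝ) ≤ √(Nat.card k : ℝ) := Real.sqrt_nonneg _
  have h1 : |∑ P ∈ (Irr k m).filter (fun P => P.natDegree ∣ m ∧ P.natDegree ≠ m),
      (P.natDegree : ℝ) * (∑ i, α P i ^ (m / P.natDegree)).re| ≤
      ∑ P ∈ (Irr k m).filter (fun P => P.natDegree ∣ m ∧ P.natDegree ≠ m),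
        (P.natDegree : ℝ) * (r * √(Nat.card k) ^ m) := by
    refine (abs_sum_le_sum_abs _ _).trans (sum_le_sum fun P hP => ?_)
    rw [mem_filter, mem_Irr] at hP
    obtain ⟨⟨p1, p2, p3⟩, p4, p5⟩ := hP
    rw [abs_mul, Nat.abs_cast]
    apply mul_le_mul_of_nonneg_left _ (Nat.cast_nonneg _)
    have h2 := norm_sum (α P) (hL.2.1 P p1 p2).1 (m / P.natDegree)
    rw [← pow_mul, Nat.mul_div_cancel' p4, Fintype.card_fin] at h2
    exact (Complex.abs_re_le_norm _).trans h2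
  have h2 : ∑ P ∈ (Irr k m).filter (fun P => P.natDegree ∣ m ∧ P.natDegree ≠ m),
        (P.natDegree : ℝ) * (r * √(Nat.card k) ^ m) ≤
      ∑ P ∈ Irr k (m / 2), (P.natDegree : ℝ) * (r * √(Nat.card k) ^ m) := by
    apply sum_le_sum_of_subset_of_nonneg
    · intro P hP
      rw [mem_filter, mem_Irr] at hP
      obtain ⟨⟨p1, p2, p3⟩, p4, p5⟩ := hP
      rw [mem_Irr]
      refine ⟨p1, p2, ?_⟩
      obtain ⟨c', hc⟩ := p4
      have hc2 : 2 ≤ c' := by
        rcases c' with _ | _ | c'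
        · omega
        · omega
        · omega
      rw [Nat.le_div_iff_mul_le (by norm_num)]
      calc P.natDegree * 2 ≤ P.natDegree * c' := Nat.mul_le_mul_left _ hc2
        _ = m := hc.symm
    · intro P _ _
      positivity
  have h3 : ∑ P ∈ Irr k (m / 2), (P.natDegree : ℝ) * (r * √(Nat.card k) ^ m) ≤
      (r * √(Nat.card k) ^ m) * ∑ e ∈ Icc 1 (m / 2), (Nat.card k : ℝ) ^ e := by
    rw [sum_Irr, mul_sum]
    refine sum_le_sum fun e he => ?_
    rw [sum_congr rfl fun P hP => by rw [(mem_Pd.1 hP).2.2], sum_const, nsmul_eq_mul]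
    have := card_Pd_real (k := k) e
    calc ((Pd k e).card : ℝ) * ((e : ℝ) * (r * √(Nat.card k) ^ m)) =
          (r * √(Nat.card k) ^ m) * ((Pd k e).card * e) := by ring
      _ ≤ _ := mul_le_mul_of_nonneg_left this (by positivity)
  have h4 : (Nat.card k : ℝ) ^ (m / 2) ≤ √(Nat.card k) ^ m := by
    rw [← sq_pow, ← pow_mul]
    exact pow_le_pow_right₀ sqrt_one (Nat.div_mul_le_self m 2)
  calc |∑ P ∈ (Irr k m).filter (fun P => P.natDegree ∣ m ∧ P.natDegree ≠ m),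
      (P.natDegree : ℝ) * (∑ i, α P i ^ (m / P.natDegree)).re| ≤
        (r * √(Nat.card k) ^ m) * ∑ e ∈ Icc 1 (m / 2), (Nat.card k : ℝ) ^ e :=
        (h1.trans h2).trans h3
    _ ≤ (r * √(Nat.card k) ^ m) * (2 * √(Nat.card k) ^ m) := by
        apply mul_le_mul_of_nonneg_left _ (by positivity)
        exact (geom _).trans (mul_le_mul_of_nonneg_left h4 (by norm_num))
    _ = 2 * r * (Nat.card k : ℝ) ^ m := by
        rw [← sq_pow]
        ring

/-- the power sum as a finite sum -/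
theorem psum_re {r : ℕ} (α : k[X] → Fin r → ℂ) (α' : Fin r → ℂ) {m : ℕ} (hm : 0 < m) :
    (psum α α' m).re = (∑ i, α' i ^ m).re +
      (∑ P ∈ Pd k m, (m : ℝ) * (∑ i, α P i).re +
      ∑ P ∈ (Irr k m).filter (fun P => P.natDegree ∣ m ∧ P.natDegree ≠ m),
      (P.natDegree : ℝ) * (∑ i, α P i ^ (m / P.natDegree)).re) := by
  classical
  unfold psum
  rw [finsum_eq_sum_of_support_subset (s := Irr k m)]
  · rw [Complex.add_re, Complex.re_sum (Irr k m)]
    congr 1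
    have h1 : ∀ P ∈ Irr k m, ((if P.Monic ∧ Irreducible P ∧ P.natDegree ∣ m then
        (P.natDegree : ℂ) * ∑ i, α P i ^ (m / P.natDegree) else 0 : ℂ)).re =
        (if P.natDegree = m then (m : ℝ) * (∑ i, α P i).re else 0) +
        (if P.natDegree ∣ m ∧ P.natDegree ≠ m then
          (P.natDegree : ℝ) * (∑ i, α P i ^ (m / P.natDegree)).re else 0) := by
      intro P hP
      rw [mem_Irr] at hP
      obtain ⟨p1, p2, p3⟩ := hP
      have hre : ∀ z : ℂ, ((P.natDegree : ℂ) * z).re = (P.natDegree : ℝ) * z.re := by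
        intro z
        have : (P.natDegree : ℂ) = ((P.natDegree : ℝ) : ℂ) := by push_cast; rfl
        rw [this, Complex.re_ofReal_mul]
      by_cases h : P.natDegree = m
      · rw [if_pos ⟨p1, p2, by rw [h]⟩, if_pos h, if_neg (by tauto), add_zero, hre, h,
          Nat.div_self hm]
        simp only [pow_one]
      · rw [if_neg h, zero_add]
        by_cases h' : P.natDegree ∣ m
        · rw [if_pos ⟨p1, p2, h'⟩, if_pos ⟨h', h⟩, hre]
        · rw [if_neg (by tauto), if_neg (by tauto)]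
          simp
    refine (sum_congr rfl fun P hP => ?_ : _ = ∑ P ∈ Irr k m,
        ((if P.natDegree = m then (m : ℝ) * (∑ i, α P i).re else 0) +
        (if P.natDegree ∣ m ∧ P.natDegree ≠ m then
          (P.natDegree : ℝ) * (∑ i, α P i ^ (m / P.natDegree)).re else 0))).trans ?_
    · rw [← h1 P hP]
      congr 1
      split_ifs <;> rfl
    · rw [sum_add_distrib, ← sum_filter, ← sum_filter]
      rfl
  · intro P hP
    rw [Function.mem_support] at hP
    by_contra h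
    apply hP
    rw [if_neg]
    rintro ⟨p1, p2, p3⟩
    apply h
    rw [mem_coe, mem_Irr]
    exact ⟨p1, p2, Nat.le_of_dvd hm p3⟩

/-- the bad primes -/
theorem bad_bound {r : ℕ} {α₀ : k[X] → Fin r → ℂ}
    (hα₀ : ∀ P : k[X], P.Monic → Irreducible P → ∀ i, ‖α₀ P i‖ ≤ √(Nat.card k : ℝ) ^ P.natDegree)
    {D : k[X]} {c : ℕ} {B : Finset k[X]} {α : k[X] → Fin r → ℂ} {α' : Fin r → ℂ}
    (hL : Loc α₀ D c B α α') {m : ℕ} (hm : 0 < m) :
    ∑ P ∈ Pd k m, (m : ℝ) * (tP α₀ P * chi D P) - (Nat.card k : ℝ) ^ m *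
      (2 * r * ∑ P ∈ Pd k m, if P ∈ B then (P.natDegree : ℝ) else 0) ≤
      ∑ P ∈ Pd k m, (m : ℝ) * (∑ i, α P i).re := by
  have hq := q_pos (k := k)
  rw [mul_sum, mul_sum, ← sum_sub_distrib]
  refine sum_le_sum fun P hP => ?_
  obtain ⟨p1, p2, p3⟩ := mem_Pd.1 hP
  obtain ⟨hα, htr⟩ := hL.2.1 P p1 p2
  by_cases hB : P ∈ B
  · rw [if_pos hB, p3]
    have h3 := tP_bound (hα₀ P p1 p2)
    have h4 := tP_bound hα
    rw [p3] at h3 h4
    have h5 := (abs_le.1 h4).1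
    have h6 : tP α₀ P * chi D P ≤ r * √(Nat.card k : ℝ) ^ m := by
      refine (le_abs_self _).trans ?_
      rw [abs_mul]
      calc |tP α₀ P| * |(chi D P : ℝ)| ≤ |tP α₀ P| * 1 :=
            mul_le_mul_of_nonneg_left (chi_abs _ _) (abs_nonneg _)
        _ = |tP α₀ P| := mul_one _
        _ ≤ _ := h3
    have h8 : √(Nat.card k : ℝ) ^ m ≤ (Nat.card k : ℝ) ^ m := by
      rw [← sq_pow]
      nlinarith [one_le_pow₀ (sqrt_one (k := k)) (n := m)]
    have hm0 : (0 : ℝ) ≤ m := Nat.cast_nonneg _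
    have hr0 : (0 : ℝ) ≤ r := Nat.cast_nonneg _
    have h9 : tP α₀ P * chi D P - 2 * r * (Nat.card k : ℝ) ^ m ≤ (∑ i, α P i).re := by
      have h10 : (r : ℝ) * √(Nat.card k : ℝ) ^ m ≤ r * (Nat.card k : ℝ) ^ m :=
        mul_le_mul_of_nonneg_left h8 hr0
      have h11 : -(r * √(Nat.card k : ℝ) ^ m) ≤ (∑ i, α P i).re := h5
      linarith
    calc (m : ℝ) * (tP α₀ P * chi D P) - (Nat.card k : ℝ) ^ m * (2 * r * m) =
          m * (tP α₀ P * chi D P - 2 * r * (Nat.card k : ℝ) ^ m) := by ring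
      _ ≤ _ := mul_le_mul_of_nonneg_left h9 hm0
  · rw [if_neg hB, htr hB]
    have e : ((chi D P : ℂ) * ∑ i, α₀ P i).re = tP α₀ P * chi D P := by
      have : (chi D P : ℂ) = ((chi D P : ℝ) : ℂ) := by push_cast; rfl
      rw [this, Complex.re_ofReal_mul, mul_comm]
      rfl
    rw [e]
    simp

open Classical in
/-- **the bound for the order** -/
theorem det {r : ℕ} {α₀ : k[X] → Fin r → ℂ}
    (hα₀ : ∀ P : k[X], P.Monic → Irreducible P → ∀ i, ‖α₀ P i‖ ≤ √(Nat.card k : ℝ) ^ P.natDegree)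
    {D : k[X]} {c : ℕ} {B : Finset k[X]} {α : k[X] → Fin r → ℂ} {α' : Fin r → ℂ}
    (hL : Loc α₀ D c B α α')
    {Y : ℕ} (hY : 0 < Y) {N : ℕ} {β : Fin N → ℂ} (hβ : ∀ i, ‖β i‖ = 1)
    (hps : ∀ m : ℕ, 0 < m → psum α α' m = -((Nat.card k : ℂ) ^ m * ∑ i, β i ^ m)) :
    ((univ.filter fun i => β i = 1).card : ℝ) ≤
      (N + 4 * r * c) / Y + 6 * r + ∑ P ∈ Irr k (Y - 1), wt k Y P * tP α₀ P * chi D P := by
  have hY' : (0 : ℝ) < Y := by exact_mod_cast hY
  have hq := q_pos (k := k)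
  have hr0 : (0 : ℝ) ≤ r := Nat.cast_nonneg _
  have h1 := fejer_bound hβ Y
  set b : ℕ → ℝ := fun m => ∑ P ∈ Pd k m, if P ∈ B then (P.natDegree : ℝ) else 0 with hb
  have hb0 : ∀ m, 0 ≤ b m := fun m => sum_nonneg fun P _ => by split_ifs <;> positivity
  have e : Icc 1 (Y - 1) = Ico 1 Y := by
    ext x
    simp only [mem_Icc, mem_Ico]
    omega
  have hbD : ∑ m ∈ Ico 1 Y, b m ≤ c := by
    rw [← e, ← sum_Irr (Y - 1) fun P => if P ∈ B then (P.natDegree : ℝ) else 0, ← sum_filter]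
    refine (sum_le_sum_of_subset_of_nonneg (t := B) ?_ fun P _ _ => Nat.cast_nonneg _).trans ?_
    · intro P hP
      exact (mem_filter.1 hP).2
    · exact_mod_cast hL.1
  have h2' : ∀ m ∈ Ico 1 Y, ((Y : ℝ) - m) * (∑ i, β i ^ m).re ≤
      (3 * r * Y + 2 * r * Y * b m) -
        ((Y : ℝ) - m) * ∑ P ∈ Pd k m, (m : ℝ) * (tP α₀ P * chi D P) / (Nat.card k : ℝ) ^ m := by
    intro m hm
    rw [mem_Ico] at hm
    have hm0 : 0 < m := hm.1
    have hYm : (0 : ℝ) ≤ (Y : ℝ) - m := by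
      have : (m : ℝ) ≤ Y := by exact_mod_cast hm.2.le
      linarith
    have hYm' : (Y : ℝ) - m ≤ Y := by
      have : (0 : ℝ) ≤ m := Nat.cast_nonneg _
      linarith
    have hqm : (0 : ℝ) < (Nat.card k : ℝ) ^ m := pow_pos hq m
    have h3 : (∑ i, β i ^ m).re = -(psum α α' m).re / (Nat.card k : ℝ) ^ m := by
      have h4 : (psum α α' m).re = -((Nat.card k : ℝ) ^ m * (∑ i, β i ^ m).re) := by
        rw [hps m hm0, Complex.neg_re]
        have : ((Nat.card k : ℂ)) ^ m = (((Nat.card k : ℝ) ^ m : ℝ) : ℂ) := by push_cast; rfl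
        rw [this, Complex.re_ofReal_mul]
      rw [h4, neg_neg, mul_div_cancel_left₀ _ hqm.ne']
    have h5 := rest_bound hL hm0
    have h6 := bad_bound hα₀ hL hm0
    have h7 := norm_sum α' hL.2.2 m
    rw [Fintype.card_fin] at h7
    have h7' := (abs_le.1 ((Complex.abs_re_le_norm _).trans h7)).1
    have h8 : √(Nat.card k : ℝ) ^ m ≤ (Nat.card k : ℝ) ^ m := by
      rw [← sq_pow]
      nlinarith [one_le_pow₀ (sqrt_one (k := k)) (n := m)]
    have h8' : (r : ℝ) * √(Nat.card k : ℝ) ^ m ≤ r * (Nat.card k : ℝ) ^ m :=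
      mul_le_mul_of_nonneg_left h8 (by positivity)
    have h9 : (∑ i, β i ^ m).re ≤ 3 * r + 2 * r * b m -
        ∑ P ∈ Pd k m, (m : ℝ) * (tP α₀ P * chi D P) / (Nat.card k : ℝ) ^ m := by
      rw [h3, psum_re α α' hm0, ← sum_div, div_le_iff₀ hqm, sub_mul,
        div_mul_cancel₀ _ hqm.ne']
      have h10 := (abs_le.1 h5).1
      have e3 : (3 * (r : ℝ) + 2 * r * b m) * (Nat.card k : ℝ) ^ m =
        3 * r * (Nat.card k : ℝ) ^ m + (Nat.card k : ℝ) ^ m * (2 * r * b m) := by ring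
      rw [e3]
      linarith
    calc ((Y : ℝ) - m) * (∑ i, β i ^ m).re ≤ ((Y : ℝ) - m) * (3 * r + 2 * r * b m -
          ∑ P ∈ Pd k m, (m : ℝ) * (tP α₀ P * chi D P) / (Nat.card k : ℝ) ^ m) :=
          mul_le_mul_of_nonneg_left h9 hYm
      _ = ((Y : ℝ) - m) * (3 * r + 2 * r * b m) - ((Y : ℝ) - m) *
          ∑ P ∈ Pd k m, (m : ℝ) * (tP α₀ P * chi D P) / (Nat.card k : ℝ) ^ m := by ring
      _ ≤ (Y : ℝ) * (3 * r + 2 * r * b m) - ((Y : ℝ) - m) *
          ∑ P ∈ Pd k m, (m : ℝ) * (tP α₀ P * chi D P) / (Nat.card k : ℝ) ^ m := by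
          have := mul_le_mul_of_nonneg_right hYm'
            (by have := hb0 m; positivity : (0 : ℝ) ≤ 3 * r + 2 * r * b m)
          linarith
      _ = _ := by ring
  have h3 := sum_le_sum h2'
  rw [sum_sub_distrib, sum_add_distrib, sum_const, Nat.card_Ico, nsmul_eq_mul, ← mul_sum] at h3
  have h4 : ∑ P ∈ Irr k (Y - 1), wt k Y P * tP α₀ P * chi D P =
      -(2 / (Y : ℝ) ^ 2 * ∑ m ∈ Ico 1 Y, ((Y : ℝ) - m) *
        ∑ P ∈ Pd k m, (m : ℝ) * (tP α₀ P * chi D P) / (Nat.card k : ℝ) ^ m) := by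
    rw [sum_Irr, mul_sum, ← sum_neg_distrib, e]
    refine sum_congr rfl fun m _ => ?_
    rw [mul_sum, mul_sum, ← sum_neg_distrib]
    refine sum_congr rfl fun P hP => ?_
    unfold wt
    rw [(mem_Pd.1 hP).2.2]
    ring
  have h5 : ((Y - 1 : ℕ) : ℝ) * (3 * r * Y) ≤ 3 * r * Y ^ 2 := by
    have : ((Y - 1 : ℕ) : ℝ) ≤ Y := by exact_mod_cast Nat.sub_le _ _
    have h6 : ((Y - 1 : ℕ) : ℝ) * (3 * r * Y) ≤ Y * (3 * r * Y) :=
      mul_le_mul_of_nonneg_right this (by positivity)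
    linarith
  have h5' : 2 * (r : ℝ) * Y * ∑ m ∈ Ico 1 Y, b m ≤ 2 * r * Y * c :=
    mul_le_mul_of_nonneg_left hbD (by positivity)
  rw [h4]
  have h6' : ((univ.filter fun i => β i = 1).card : ℝ) * Y ^ 2 ≤
      Y * N + 6 * r * Y ^ 2 + 4 * r * Y * c -
      2 * ∑ m ∈ Ico 1 Y, ((Y : ℝ) - m) *
        ∑ P ∈ Pd k m, (m : ℝ) * (tP α₀ P * chi D P) / (Nat.card k : ℝ) ^ m := by
    linarith
  have h7 : ((univ.filter fun i => β i = 1).card : ℝ) ≤
      (Y * N + 6 * r * Y ^ 2 + 4 * r * Y * c -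
      2 * ∑ m ∈ Ico 1 Y, ((Y : ℝ) - m) *
        ∑ P ∈ Pd k m, (m : ℝ) * (tP α₀ P * chi D P) / (Nat.card k : ℝ) ^ m) / Y ^ 2 := by
    rw [le_div_iff₀ (by positivity)]
    exact h6'
  refine h7.trans (le_of_eq ?_)
  field_simp
  ring

open Classical in
/-- the normalised eigenvalues of Frobenius of the twist, at least `R` of which are one -/
def Big {r : ℕ} (α₀ : k[X] → Fin r → ℂ) (c n R : ℕ) (D : k[X]) : Prop :=
  ∃ (B : Finset k[X]) (α : k[X] → Fin r → ℂ) (α' : Fin r → ℂ) (N : ℕ) (β : Fin N → ℂ),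
    Loc α₀ D (n + c) B α α' ∧ N ≤ r * n + c ∧ (∀ i, ‖β i‖ = 1) ∧
    (∀ m : ℕ, 0 < m → psum α α' m = -((Nat.card k : ℂ) ^ m * ∑ i, β i ^ m)) ∧
    R ≤ (univ.filter fun i => β i = 1).card

theorem numeric {r R m : ℕ} (hr : 0 < r) (hm : 0 < m) (hR : (54 * r + 6) * m ≤ R) :
    2 * ((2 * m).factorial : ℝ) * (Real.exp 1 * (2 * (r : ℝ) ^ 2) / (2 * m)) ^ m ≤
      (4 * r / (R : ℝ)) ^ m * ((R : ℝ) / 3) ^ (2 * m) := by
  have hm' : (1 : ℝ) ≤ m := by exact_mod_cast hm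
  have hr' : (1 : ℝ) ≤ r := by exact_mod_cast hr
  have hm0 : (0 : ℝ) < m := by linarith
  have hr0 : (0 : ℝ) < r := by linarith
  have hR' : (54 * (r : ℝ) + 6) * m ≤ R := by exact_mod_cast hR
  have h54 : 54 * (r : ℝ) * m ≤ R := by nlinarith
  have hR0 : (0 : ℝ) < R := by
    have : 0 < 54 * (r : ℝ) * m := by positivity
    linarith
  have h1 : ((2 * m).factorial : ℝ) ≤ (2 * m : ℝ) ^ (2 * m) := by
    exact_mod_cast Nat.factorial_le_pow (2 * m)
  have he := Real.exp_one_lt_d9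
  have he0 := Real.exp_pos 1
  have h2 : (2 : ℝ) ≤ 2 ^ m := by
    calc (2 : ℝ) = 2 ^ 1 := by norm_num
      _ ≤ 2 ^ m := pow_le_pow_right₀ (by norm_num) hm
  calc 2 * ((2 * m).factorial : ℝ) * (Real.exp 1 * (2 * (r : ℝ) ^ 2) / (2 * m)) ^ m ≤
        2 ^ m * (2 * m : ℝ) ^ (2 * m) * (Real.exp 1 * (2 * (r : ℝ) ^ 2) / (2 * m)) ^ m := by
        gcongr
    _ = (8 * Real.exp 1 * (r : ℝ) ^ 2 * m) ^ m := by
        rw [pow_mul, ← mul_pow, ← mul_pow]
        congr 1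
        field_simp
        ring
    _ ≤ (4 * r / (R : ℝ) * ((R : ℝ) / 3) ^ 2) ^ m := by
        apply pow_le_pow_left₀ (by positivity)
        have e : 4 * (r : ℝ) / (R : ℝ) * ((R : ℝ) / 3) ^ 2 = 4 / 9 * (r * R) := by
          field_simp
          norm_num
        rw [e]
        have h3 : (r : ℝ) * (54 * r * m) ≤ r * R := mul_le_mul_of_nonneg_left h54 hr0.le
        have h4 : 0 < (r : ℝ) ^ 2 * m := by positivity
        nlinarith
    _ = _ := by rw [mul_pow, ← pow_mul]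

open Classical in
/-- **the tail** -/
theorem tail (h2 : (2 : k) ≠ 0) {r : ℕ} (hr : 0 < r) {α₀ : k[X] → Fin r → ℂ}
    (hα₀ : ∀ P : k[X], P.Monic → Irreducible P → ∀ i, ‖α₀ P i‖ ≤ √(Nat.card k : ℝ) ^ P.natDegree)
    {c n : ℕ} (hn : 0 < n) (hc : c ≤ n) (R : ℕ) (hR : 0 < R) :
    ((univ.filter fun ω : degreeLT k n => Big α₀ c n R (mo ω)).card : ℝ) ≤
      (4 * r / (R : ℝ)) ^ (R / (54 * r + 6)) * (Nat.card k : ℝ) ^ n := by
  have hq := q_pos (k := k)
  have hRr : (0 : ℝ) < R := by exact_mod_cast hR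
  have hr0 : (0 : ℝ) < r := by exact_mod_cast hr
  have hcard : ((univ.filter fun ω : degreeLT k n => Big α₀ c n R (mo ω)).card : ℝ) ≤
      (Nat.card k : ℝ) ^ n := by
    have h1 := card_le_univ (univ.filter fun ω : degreeLT k n => Big α₀ c n R (mo ω))
    rw [card_LT, ← Nat.card_eq_fintype_card] at h1
    exact_mod_cast h1
  set M : ℕ := 54 * r + 6 with hM
  have hM0 : 0 < M := by omega
  by_cases hsmall : R < M
  · rw [Nat.div_eq_of_lt hsmall, pow_zero, one_mul]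
    exact hcard
  push Not at hsmall
  have hR' : (18 : ℝ) * r ≤ R := by exact_mod_cast (by omega : 18 * r ≤ R)
  set m : ℕ := R / M with hm
  have hm1 : M * m ≤ R := Nat.mul_div_le R M
  have hm0 : 0 < m := Nat.div_pos hsmall hM0
  set T : ℕ := 3 * ((9 * r + 1) * n) with hT
  have hT0 : 0 < T := by positivity
  set Y : ℕ := (T + R - 1) / R with hY
  have hY0 : 0 < Y := Nat.div_pos (by omega) hR
  have hY1 : T ≤ Y * R := by
    have h1 : T + R - 1 < (Y + 1) * R := by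
      rw [hY, mul_comm ((T + R - 1) / R + 1) R]
      exact Nat.lt_mul_div_succ _ hR
    have e : (Y + 1) * R = Y * R + R := by ring
    rw [e] at h1
    omega
  have hY2 : (Y - 1) * R ≤ T := by
    have h1 : Y * R ≤ T + R - 1 := Nat.div_mul_le_self _ _
    rw [Nat.sub_mul, one_mul]
    omega
  have hY3 : 2 * m * (Y - 1) ≤ n := by
    have h1 : M * (2 * m * (Y - 1)) ≤ M * n := by
      calc M * (2 * m * (Y - 1)) = 2 * ((Y - 1) * (M * m)) := by ring
        _ ≤ 2 * ((Y - 1) * R) := by gcongr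
        _ ≤ 2 * T := by gcongr
        _ = M * n := by rw [hT, hM]; ring
    exact Nat.le_of_mul_le_mul_left h1 hM0
  have hV : (0 : ℝ) < 2 * (r : ℝ) ^ 2 := by positivity
  have hmom := moment_tw h2 (Irr k (Y - 1)) (Y := Y - 1) (m := m) (n := n)
    (fun P hP => mem_Irr.1 hP) hm0 hY3 (fun P => wt k Y P * tP α₀ P) hV (var_bound hα₀ hY0)
  have hYR : (0 : ℝ) < Y := by exact_mod_cast hY0
  have hNY : ∀ N : ℕ, N ≤ r * n + c →
      ((N : ℝ) + 4 * r * ((n + c : ℕ) : ℝ)) / Y ≤ R / 3 := by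
    intro N hN
    rw [div_le_div_iff₀ hYR (by norm_num)]
    have h1 : (N + 4 * r * (n + c)) * 3 ≤ R * Y := by
      calc (N + 4 * r * (n + c)) * 3 ≤ ((r * n + n) + 4 * r * (n + n)) * 3 := by gcongr; omega
        _ = T := by
          rw [hT]
          ring
        _ ≤ Y * R := hY1
        _ = R * Y := mul_comm _ _
    exact_mod_cast h1
  have hmark : ((univ.filter fun ω : degreeLT k n => Big α₀ c n R (mo ω)).card : ℝ) *
      ((R : ℝ) / 3) ^ (2 * m) ≤
      ∑ ω : degreeLT k n, (∑ P ∈ Irr k (Y - 1), wt k Y P * tP α₀ P * chi (mo ω) P) ^ (2 * m) := by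
    rw [← nsmul_eq_mul, ← sum_const]
    refine (sum_le_sum fun ω hω => ?_).trans (sum_le_sum_of_subset_of_nonneg
      (filter_subset _ _) fun ω _ _ => ?_)
    · rw [mem_filter] at hω
      obtain ⟨B, α, α', N, β, hL, hN, hβ, hps, hc⟩ := hω.2
      have h1 := det hα₀ hL hY0 hβ hps
      have h3 := hNY N hN
      have h4 : (R : ℝ) ≤ ((univ.filter fun i => β i = 1).card : ℝ) := by exact_mod_cast hc
      apply pow_le_pow_left₀ (by positivity)
      linarith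
    · rw [pow_mul]
      positivity
  have hnum := numeric hr hm0 hm1
  have h1 := hmark.trans hmom
  have h2' : ((univ.filter fun ω : degreeLT k n => Big α₀ c n R (mo ω)).card : ℝ) *
      ((R : ℝ) / 3) ^ (2 * m) ≤
      ((4 * r / (R : ℝ)) ^ m * (Nat.card k : ℝ) ^ n) * ((R : ℝ) / 3) ^ (2 * m) := by
    refine h1.trans ?_
    calc (Nat.card k : ℝ) ^ n * (2 * ((2 * m).factorial : ℝ) *
          (Real.exp 1 * (2 * (r : ℝ) ^ 2) / (2 * m)) ^ m) ≤
          (Nat.card k : ℝ) ^ n * ((4 * r / (R : ℝ)) ^ m * ((R : ℝ) / 3) ^ (2 * m)) :=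
          mul_le_mul_of_nonneg_left hnum (by positivity)
      _ = _ := by ring
  exact le_of_mul_le_mul_right h2' (by positivity)

end Pool.Agent.TH180.TW
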