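import Pool.Agent.TH180.HG.Det

/-!
Quadratic twists of a fixed Euler product over `k(t)`.
-/

set_option autoImplicit false
set_option linter.all false
set_option maxHeartbeats 1000000

open Polynomial Finset

namespace Pool.Agent.TH180.TW

open Pool.Agent.TH180.RT (finAR cardAR redM redM_apply redM_surj sum_fib sg q_pos sq_pow Pd mem_Pd
  card_Pd_real sum_Irr wt sum_nat card_LT moment fejer_bound)
open Pool.Agent.H341R2.Sharp (Irr mem_Irr)
open Pool.Agent.TH180.HG (chi exists_l psum sqrt_one geom norm_sum)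

variable {k : Type} [Field k] [Fintype k] [DecidableEq k]

theorem chi_mul {P : k[X]} (hP : Irreducible P) (l D : k[X]) :
    chi (l * D) P = chi l P * chi D P := by
  classical
  unfold chi
  rw [dif_pos hP, dif_pos hP, dif_pos hP]
  simp only [map_mul]

theorem chi_congr {P : k[X]} {D D' : k[X]} (h : P ∣ D - D') : chi D P = chi D' P := by
  classical
  unfold chi
  by_cases hP : Irreducible P
  · rw [dif_pos hP, dif_pos hP]
    simp only [AdjoinRoot.mk_eq_mk.2 h]
  · rw [dif_neg hP, dif_neg hP]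

theorem chi_abs (D P : k[X]) : |(chi D P : ℝ)| ≤ 1 := by
  classical
  by_cases hP : Irreducible P
  · have : Fact (Irreducible P) := ⟨hP⟩
    have := finAR hP.ne_zero
    let _ : Fintype (AdjoinRoot P) := Fintype.ofFinite _
    have h : chi D P = quadraticChar (AdjoinRoot P) (AdjoinRoot.mk P D) := by
      unfold chi
      rw [dif_pos hP]
    rw [h]
    rcases quadraticChar_isQuadratic (AdjoinRoot P) (AdjoinRoot.mk P D) with h | h | h <;>
      rw [h] <;> norm_num
  · have h : chi D P = 0 := by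
      unfold chi
      rw [dif_neg hP]
    rw [h]
    norm_num

/-- the monic polynomial of degree `n` -/
noncomputable def mo {n : ℕ} (ω : degreeLT k n) : k[X] := X ^ n + ω.1

theorem sym_class {M : k[X]} (hM : M.Monic) {n : ℕ} (hn : M.natDegree ≤ n)
    {l : k[X]} (hl : IsCoprime l M) (F : k[X] → ℝ)
    (hF : ∀ D D' : k[X], M ∣ D - D' → F D = F D') :
    ∑ ω : degreeLT k n, F (l * mo ω) = ∑ ω : degreeLT k n, F (mo ω) := by
  classical
  have hfin : Finite (AdjoinRoot M) := finAR hM.ne_zero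
  let _ : Fintype (AdjoinRoot M) := Fintype.ofFinite _
  have hu : IsUnit (AdjoinRoot.mk M l) := by
    obtain ⟨a, b, hab⟩ := hl
    refine IsUnit.of_mul_eq_one (AdjoinRoot.mk M a) ?_
    rw [← map_mul, ← map_one (AdjoinRoot.mk M), AdjoinRoot.mk_eq_mk]
    exact ⟨-b, by linear_combination hab⟩
  obtain ⟨u, hu⟩ := hu
  set rep : AdjoinRoot M → k[X] := Function.surjInv AdjoinRoot.mk_surjective with hrep
  have hr : ∀ c, AdjoinRoot.mk M (rep c) = c := Function.surjInv_eq _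
  set a : AdjoinRoot M := AdjoinRoot.mk M (X ^ n) with ha
  have hφ := redM_surj hM hn
  have k1 := sum_fib (redM M n) hφ fun y => F (rep (u * (a + y)))
  have k2 := sum_fib (redM M n) hφ fun y => F (rep (a + y))
  have e1 : ∀ ω : degreeLT k n, F (rep (u * (a + redM M n ω))) = F (l * mo ω) := by
    intro ω
    apply hF
    rw [← AdjoinRoot.mk_eq_mk, hr, map_mul, ← hu, redM_apply, ha, ← map_add]
    rfl
  have e2 : ∀ ω : degreeLT k n, F (rep (a + redM M n ω)) = F (mo ω) := by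
    intro ω
    apply hF
    rw [← AdjoinRoot.mk_eq_mk, hr, redM_apply, ha, ← map_add]
    rfl
  have s1 : ∑ y : AdjoinRoot M, F (rep (u * (a + y))) = ∑ y : AdjoinRoot M, F (rep y) :=
    Equiv.sum_comp ((Equiv.addLeft a).trans (Units.mulLeft u)) fun y => F (rep y)
  have s2 : ∑ y : AdjoinRoot M, F (rep (a + y)) = ∑ y : AdjoinRoot M, F (rep y) :=
    Equiv.sum_comp (Equiv.addLeft a) fun y => F (rep y)
  rw [sum_congr rfl fun ω _ => e1 ω, s1] at k1
  rw [sum_congr rfl fun ω _ => e2 ω, s2] at k2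
  rw [k1, k2]

/-- the symmetry of the moments -/
theorem sym_main (h2 : (2 : k) ≠ 0) (S : Finset k[X]) {Y m n : ℕ}
    (hS : ∀ P ∈ S, P.Monic ∧ Irreducible P ∧ P.natDegree ≤ Y) (hn : m * Y ≤ n)
    (w : k[X] → ℝ) (ε : S → Bool) :
    ∑ ω : degreeLT k n, (∑ P : S, sg (ε P) * (w P * chi (mo ω) P)) ^ m =
      ∑ ω : degreeLT k n, (∑ P : S, w P * chi (mo ω) P.1) ^ m := by
  classical
  simp_rw [Fintype.sum_pow]
  rw [sum_comm, sum_comm (s := (univ : Finset (degreeLT k n)))]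
  refine sum_congr rfl fun p _ => ?_
  set M : k[X] := ∏ i, (p i).1 with hM
  have hmon : M.Monic := monic_prod_of_monic _ _ fun i _ => (hS _ (p i).2).1
  have hdeg : M.natDegree ≤ m * Y := by
    rw [hM, natDegree_prod_of_monic _ _ fun i _ => (hS _ (p i).2).1]
    calc ∑ i, ((p i).1).natDegree ≤ ∑ i : Fin m, Y := sum_le_sum fun i _ => (hS _ (p i).2).2.2
      _ = m * Y := by simp
  obtain ⟨l, hl⟩ := exists_l h2 S (fun P hP => ⟨(hS P hP).1, (hS P hP).2.1⟩)
    (fun P => if h : P ∈ S then ε ⟨P, h⟩ else true)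
  have hcop : IsCoprime l M := by
    rw [hM]
    refine IsCoprime.prod_right fun i _ => ?_
    exact ((hS _ (p i).2).2.1.coprime_iff_not_dvd.2 (hl _ (p i).2).1).symm
  have key := sym_class hmon (hdeg.trans hn) hcop
    (fun D => ∏ i, w (p i) * chi D (p i).1) (by
      intro D D' hD
      refine prod_congr rfl fun i _ => ?_
      have hd : (p i).1 ∣ M := dvd_prod_of_mem _ (mem_univ i)
      rw [chi_congr (hd.trans hD)])
  rw [← key]
  refine sum_congr rfl fun ω _ => prod_congr rfl fun i _ => ?_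
  rw [chi_mul (hS _ (p i).2).2.1]
  have h3 := (hl _ (p i).2).2
  rw [dif_pos (p i).2] at h3
  rw [h3]
  unfold sg
  cases ε (p i) <;> simp

/-- the moment bound -/
theorem moment_tw (h2 : (2 : k) ≠ 0) (S : Finset k[X]) {Y m n : ℕ}
    (hS : ∀ P ∈ S, P.Monic ∧ Irreducible P ∧ P.natDegree ≤ Y) (hm : 0 < m)
    (hn : 2 * m * Y ≤ n) (w : k[X] → ℝ) {V : ℝ} (hV : 0 < V) (hw : ∑ P ∈ S, w P ^ 2 ≤ V) :
    ∑ ω : degreeLT k n, (∑ P ∈ S, w P * chi (mo ω) P) ^ (2 * m) ≤
      (Nat.card k : ℝ) ^ n *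
        (2 * (2 * m).factorial * (Real.exp 1 * V / (2 * m)) ^ m) := by
  classical
  have key := moment (Ω := degreeLT k n) (ι := S) (fun P ω => w P * chi (mo ω) P.1) hV
    (fun ω => by
      rw [sum_coe_sort S fun P => (w P * (chi (mo ω) P : ℝ)) ^ 2]
      refine (sum_le_sum fun P _ => ?_).trans hw
      rw [mul_pow]
      have h := chi_abs (mo ω) P
      have h' : (chi (mo ω) P : ℝ) ^ 2 ≤ 1 := by
        rw [← sq_abs]
        exact pow_le_one₀ (abs_nonneg _) h
      calc w P ^ 2 * (chi (mo ω) P : ℝ) ^ 2 ≤ w P ^ 2 * 1 :=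
            mul_le_mul_of_nonneg_left h' (sq_nonneg _)
        _ = w P ^ 2 := mul_one _) hm (fun ε => sym_main h2 S hS hn w ε)
  rw [card_LT] at key
  rw [Nat.card_eq_fintype_card]
  push_cast at key
  refine le_trans (le_of_eq ?_) key
  refine sum_congr rfl fun ω _ => ?_
  rw [sum_coe_sort S fun P => w P * (chi (mo ω) P : ℝ)]

/-- the real part of the trace -/
noncomputable def tP {r : ℕ} (α : k[X] → Fin r → ℂ) (P : k[X]) : ℝ := (∑ i, α P i).re

theorem tP_bound {r : ℕ} {α : k[X] → Fin r → ℂ} {P : k[X]}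
    (hα : ∀ i, ‖α P i‖ ≤ √(Nat.card k : ℝ) ^ P.natDegree) :
    |tP α P| ≤ r * √(Nat.card k : ℝ) ^ P.natDegree := by
  have h := norm_sum (α P) hα 1
  simp only [pow_one, Fintype.card_fin] at h
  exact (Complex.abs_re_le_norm _).trans h

/-- the variance -/
theorem var_bound {r : ℕ} {α : k[X] → Fin r → ℂ}
    (hα : ∀ P : k[X], P.Monic → Irreducible P → ∀ i, ‖α P i‖ ≤ √(Nat.card k : ℝ) ^ P.natDegree)
    {Y : ℕ} (hY : 0 < Y) :
    ∑ P ∈ Irr k (Y - 1), (wt k Y P * tP α P) ^ 2 ≤ 2 * (r : ℝ) ^ 2 := by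
  have hY' : (0 : ℝ) < Y := by exact_mod_cast hY
  have hq := q_pos (k := k)
  rw [sum_Irr]
  have h1 : ∀ m ∈ Icc 1 (Y - 1), ∑ P ∈ Pd k m, (wt k Y P * tP α P) ^ 2 ≤
      4 * (r : ℝ) ^ 2 / (Y : ℝ) ^ 2 * m := by
    intro m hm
    rw [mem_Icc] at hm
    have hm0 : (0 : ℝ) < m := by exact_mod_cast hm.1
    have h2 : ∀ P ∈ Pd k m, (wt k Y P * tP α P) ^ 2 ≤
        4 * (r : ℝ) ^ 2 / (Y : ℝ) ^ 2 * m ^ 2 / (Nat.card k : ℝ) ^ m := by
      intro P hP
      obtain ⟨p1, p2, p3⟩ := mem_Pd.1 hP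
      have h3 := tP_bound (hα P p1 p2)
      rw [p3] at h3
      have h4 : |wt k Y P| ≤ 2 / (Y : ℝ) * m / (Nat.card k : ℝ) ^ m := by
        unfold wt
        rw [p3, abs_neg, abs_of_nonneg]
        · apply div_le_div_of_nonneg_right _ (by positivity)
          apply mul_le_mul_of_nonneg_right _ hm0.le
          have : ((Y : ℝ) - m) ≤ Y := by linarith
          calc 2 / (Y : ℝ) ^ 2 * ((Y : ℝ) - m) ≤ 2 / (Y : ℝ) ^ 2 * Y :=
                mul_le_mul_of_nonneg_left this (by positivity)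
            _ = 2 / (Y : ℝ) := by field_simp
        · have : (0 : ℝ) ≤ (Y : ℝ) - m := by
            have : (m : ℝ) ≤ Y := by exact_mod_cast (by omega : m ≤ Y)
            linarith
          positivity
      have h5 : |wt k Y P * tP α P| ≤
          2 / (Y : ℝ) * m / (Nat.card k : ℝ) ^ m * ((r : ℝ) * √(Nat.card k) ^ m) := by
        rw [abs_mul]
        exact mul_le_mul h4 h3 (abs_nonneg _) (by positivity)
      calc (wt k Y P * tP α P) ^ 2 = |wt k Y P * tP α P| ^ 2 := (sq_abs _).symm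
        _ ≤ (2 / (Y : ℝ) * m / (Nat.card k : ℝ) ^ m * ((r : ℝ) * √(Nat.card k) ^ m)) ^ 2 :=
            pow_le_pow_left₀ (abs_nonneg _) h5 2
        _ = 4 * (r : ℝ) ^ 2 / (Y : ℝ) ^ 2 * m ^ 2 / (Nat.card k : ℝ) ^ m := by
            have := sq_pow (k := k) m
            rw [mul_pow, mul_pow (r : ℝ), this]
            field_simp
            ring
    refine (sum_le_sum h2).trans ?_
    rw [sum_const, nsmul_eq_mul]
    have h7 := card_Pd_real (k := k) m
    calc ((Pd k m).card : ℝ) *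
          (4 * (r : ℝ) ^ 2 / (Y : ℝ) ^ 2 * m ^ 2 / (Nat.card k : ℝ) ^ m) =
          ((Pd k m).card * m) *
            (4 * (r : ℝ) ^ 2 / (Y : ℝ) ^ 2 * m / (Nat.card k : ℝ) ^ m) := by ring
      _ ≤ (Nat.card k : ℝ) ^ m *
            (4 * (r : ℝ) ^ 2 / (Y : ℝ) ^ 2 * m / (Nat.card k : ℝ) ^ m) :=
          mul_le_mul_of_nonneg_right h7 (by positivity)
      _ = 4 * (r : ℝ) ^ 2 / (Y : ℝ) ^ 2 * m := by field_simp
  refine (sum_le_sum h1).trans ?_
  rw [← mul_sum]
  calc 4 * (r : ℝ) ^ 2 / (Y : ℝ) ^ 2 * ∑ m ∈ Icc 1 (Y - 1), (m : ℝ) ≤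
        4 * (r : ℝ) ^ 2 / (Y : ℝ) ^ 2 * (Y ^ 2 / 2) :=
        mul_le_mul_of_nonneg_left (sum_nat Y) (by positivity)
    _ = 2 * (r : ℝ) ^ 2 := by
      field_simp
      ring

end Pool.Agent.TH180.TW
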